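import Pool.Agent.Q178.Functors.Props

set_option autoImplicit false

/-!
The functor `Fun` preserves limits of inverse spectra.
-/

universe u v

namespace Q178.Functors

open CategoryTheory Limits Set Topology Opposite

section limits

variable {J : Type u} [PartialOrder J] [IsDirectedOrder J] [Nonempty J]
  {K : Jᵒᵖ ⥤ CompHaus.{u}} {c : Cone K}

omit [IsDirectedOrder J] [Nonempty J] in
/-- Points of the limit are the same as compatible families of points. -/
lemma exists_point (hc : IsLimit c) (s : ∀ j, K.obj j)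
    (hs : ∀ {i j : Jᵒᵖ} (f : i ⟶ j), K.map f (s i) = s j) :
    ∃! x : c.pt, ∀ j, c.π.app j x = s j := by
  have h1 := isLimitOfPreserves (forget CompHaus.{u}) hc
  have h2 := (Types.isLimit_iff _).1 ⟨h1⟩ s (fun {i j} f => hs f)
  exact h2

omit [IsDirectedOrder J] [Nonempty J] in
lemma point_ext (hc : IsLimit c) {x y : c.pt} (h : ∀ j, c.π.app j x = c.π.app j y) : x = y := by
  obtain ⟨z, _, hz⟩ := exists_point hc (fun j => c.π.app j y) (fun {i j} f => by
    have := c.w f
    exact congrFun (congrArg (fun g : c.pt ⟶ K.obj j => (g : c.pt → K.obj j)) this) y)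
  rw [hz x h, hz y fun _ => rfl]

lemma finite_reps {X : CompHaus.{u}} (m : M X) : Finite {p : X × X × Bool // mk p = m} := by
  obtain ⟨q, rfl⟩ := surjective_mk m
  have hfin : ({q.1, q.2.1} ×ˢ ({q.1, q.2.1} ×ˢ (univ : Set Bool)) :
      Set (X × X × Bool)).Finite :=
    (toFinite ({q.1, q.2.1} : Set X)).prod ((toFinite ({q.1, q.2.1} : Set X)).prod (toFinite _))
  have hsub : {p : X × X × Bool | mk p = mk q} ⊆
      ({q.1, q.2.1} ×ˢ ({q.1, q.2.1} ×ˢ (univ : Set Bool)) : Set (X × X × Bool)) := ?_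
  · exact (hfin.subset hsub).to_subtype
  intro p hp
  have hp' : (mk p : M X) = mk q := hp
  rw [mk_eq_iff] at hp'
  have := mem_of_rel (A := {q.1, q.2.1}) (p := q) (q := p) (by
    rw [← mk_eq_iff]
    exact hp.symm) ⟨by simp, by simp⟩
  exact ⟨this.1, this.2, trivial⟩

/-- The inverse system of representatives of a compatible family of measures. -/
noncomputable def reps (K : Jᵒᵖ ⥤ CompHaus.{u}) (s : ∀ j, M (K.obj j))
    (hs : ∀ {i j : Jᵒᵖ} (f : i ⟶ j), (Fun.map (K.map f) (s i) : M (K.obj j)) = s j) :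
    Jᵒᵖ ⥤ Type u where
  obj j := {p : K.obj j × K.obj j × Bool // mk p = s j}
  map {i j} f := ↾(fun p => ⟨tmap (K.map f) p.1, by
    have h1 := hs f
    have h2 := p.2
    have h3 : (Fun.map (K.map f) (mk p.1 : M (K.obj i)) : M (K.obj j)) =
      Fun.map (K.map f) (s i) := congrArg (Fun.map (K.map f) : M (K.obj i) → M (K.obj j)) h2
    exact h3.trans h1⟩)
  map_id j := by
    ext p <;> simp [tmap]
  map_comp f g := by
    ext p <;> simp [tmap]

lemma exists_measure (hc : IsLimit c) (s : ∀ j, M (K.obj j))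
    (hs : ∀ {i j : Jᵒᵖ} (f : i ⟶ j), (Fun.map (K.map f) (s i) : M (K.obj j)) = s j) :
    ∃ x : M c.pt, ∀ j, (Fun.map (c.π.app j) x : M (K.obj j)) = s j := by
  have hfin : ∀ j, Finite ((reps K s hs).obj j) := fun j => finite_reps (s j)
  have hne : ∀ j, Nonempty ((reps K s hs).obj j) := by
    intro j
    obtain ⟨p, hp⟩ := surjective_mk (s j)
    exact ⟨⟨p, hp⟩⟩
  obtain ⟨r, hr⟩ := nonempty_sections_of_finite_inverse_system (reps K s hs)
  have hr' : ∀ {i j : Jᵒᵖ} (f : i ⟶ j), tmap (K.map f) (r i).1 = (r j).1 := fun f =>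
    congrArg Subtype.val (hr f)
  obtain ⟨a, ha, _⟩ := exists_point hc (fun j => (r j).1.1) (fun f => congrArg Prod.fst (hr' f))
  obtain ⟨b, hb, _⟩ := exists_point hc (fun j => (r j).1.2.1)
    (fun f => congrArg (fun p => p.2.1) (hr' f))
  obtain ⟨j0⟩ := (inferInstance : Nonempty J)
  have ht : ∀ j, (r j).1.2.2 = (r (op j0)).1.2.2 := by
    intro j
    obtain ⟨k, hk1, hk2⟩ := exists_ge_ge (unop j) j0
    have h1 := congrArg (fun p => p.2.2) (hr' (homOfLE hk1).op)
    have h2 := congrArg (fun p => p.2.2) (hr' (homOfLE hk2).op)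
    exact h1.symm.trans h2
  refine ⟨mk (a, b, (r (op j0)).1.2.2), fun j => ?_⟩
  rw [← (r j).2]
  change (mk (tmap (c.π.app j) (a, b, (r (op j0)).1.2.2)) : M (K.obj j)) = mk (r j).1
  congr 1
  simp only [tmap, ha, hb, ← ht j]

lemma measure_ext (hc : IsLimit c) {x y : M c.pt}
    (h : ∀ j, (Fun.map (c.π.app j) x : M (K.obj j)) = Fun.map (c.π.app j) y) : x = y := by
  obtain ⟨p, rfl⟩ := surjective_mk x
  obtain ⟨q, rfl⟩ := surjective_mk y
  have h' : ∀ j, Rel (tmap (c.π.app j) p) (tmap (c.π.app j) q) := fun j => mk_eq_iff.1 (h j)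
  have hmap : ∀ {i j : Jᵒᵖ} (f : i ⟶ j) (z : c.pt), K.map f (c.π.app i z) = c.π.app j z := by
    intro i j f z
    have := c.w f
    exact congrFun (congrArg (fun g : c.pt ⟶ K.obj j => (g : c.pt → K.obj j)) this) z
  -- equality of points is detected at a late stage
  have hpt : ∀ z w : c.pt, z ≠ w → ∃ j : J, ∀ k, j ≤ k → c.π.app (op k) z ≠ c.π.app (op k) w := by
    intro z w hne
    by_contra hcon
    push Not at hcon
    apply hne
    apply point_ext hc
    intro j
    obtain ⟨k, hk, hk'⟩ := hcon (unop j)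
    have h1 := hmap (homOfLE hk).op z
    have h2 := hmap (homOfLE hk).op w
    rw [hk'] at h1
    exact h1.symm.trans h2
  have hpt' : ∀ z w : c.pt, ∃ j : J, ∀ k, j ≤ k →
      (c.π.app (op k) z = c.π.app (op k) w → z = w) := by
    intro z w
    by_cases hzw : z = w
    · obtain ⟨j0⟩ := (inferInstance : Nonempty J)
      exact ⟨j0, fun _ _ _ => hzw⟩
    · obtain ⟨j, hj⟩ := hpt z w hzw
      exact ⟨j, fun k hk he => absurd he (hj k hk)⟩
  have hdir : ∀ (n : ℕ) (f : Fin n → J), ∃ k, ∀ i, f i ≤ k := by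
    intro n f
    obtain ⟨k, hk⟩ := Finite.exists_le f
    exact ⟨k, hk⟩
  choose! g hg using hpt'
  obtain ⟨k, hk⟩ := hdir 6 ![g p.1 q.1, g p.2.1 q.2.1, g p.1 q.2.1, g p.2.1 q.1, g p.1 p.2.1,
    g q.1 p.1]
  obtain ⟨k', hk', hk''⟩ := exists_ge_ge k (g q.2.1 p.1)
  have e1 := hg p.1 q.1 k' ((hk 0).trans hk')
  have e2 := hg p.2.1 q.2.1 k' ((hk 1).trans hk')
  have e3 := hg p.1 q.2.1 k' ((hk 2).trans hk')
  have e4 := hg p.2.1 q.1 k' ((hk 3).trans hk')
  have e5 := hg p.1 p.2.1 k' ((hk 4).trans hk')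
  have e6 := hg q.1 p.1 k' ((hk 5).trans hk')
  have e7 := hg q.2.1 p.1 k' hk''
  rw [mk_eq_iff]
  obtain ⟨a, b, s⟩ := p
  obtain ⟨a', b', s'⟩ := q
  rcases h' (op k') with h1 | ⟨h1, h2, h3, h4⟩ | ⟨h1, h2, h3⟩
  · left
    simp only [tmap, Prod.mk.injEq] at h1
    exact Prod.ext (e1 h1.1) (Prod.ext (e2 h1.2.1) h1.2.2)
  · right
    left
    exact ⟨h1, h2, e3 h3, e4 h4⟩
  · right
    right
    exact ⟨e5 h1, e6 h2, e7 h3⟩

end limits

lemma fun_cont (J : Type u) [PartialOrder J] [IsDirectedOrder J] [Nonempty J] :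
    PreservesLimitsOfShape Jᵒᵖ Fun.{u} := by
  refine ⟨fun {K} => ⟨fun {c} hc => ?_⟩⟩
  have h1 : Nonempty (IsLimit ((forget CompHaus.{u}).mapCone (Fun.mapCone c))) := by
    rw [Types.isLimit_iff]
    intro s hs
    obtain ⟨x, hx⟩ := exists_measure hc s (fun f => hs f)
    refine ⟨x, hx, fun y hy => ?_⟩
    apply measure_ext hc
    intro j
    have h1 := hx j
    have h2 := hy j
    exact h2.trans h1.symm
  obtain ⟨h1⟩ := h1
  exact ⟨isLimitOfReflects (forget CompHaus.{u}) h1⟩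

theorem fun_normal : IsNormal Fun.{u} where
  mono := fun_mono
  epi := fun_epi
  cont := fun_cont
  inter := fun_inter
  empty := fun_empty
  point := fun_point
  weight := fun_weight
  preim := fun D hf _ hD => fun_preim D hf hD

end Q178.Functors
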