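import Mathlib

set_option autoImplicit false

/-!
Normal functors in the category of compact Hausdorff spaces: definitions.
-/

universe u

namespace Q178.Functors

open CategoryTheory Set Topology
open scoped Cardinal

/-- A map is skeletal if the preimages of nowhere dense sets are nowhere dense. -/
def IsSkeletalMap {X Y : Type u} [TopologicalSpace X] [TopologicalSpace Y] (f : X → Y) : Prop :=
  ∀ A : Set Y, IsNowhereDense A → IsNowhereDense (f ⁻¹' A)

/-- The weight of a space: the least cardinality of a base. -/
noncomputable def weight (X : Type u) [TopologicalSpace X] : Cardinal.{u} :=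
  sInf {κ | ∃ B : Set (Set X), TopologicalSpace.IsTopologicalBasis B ∧ #B = κ}

/-- A commutative square of continuous maps between compact Hausdorff spaces. -/
structure Square where
  /-- the upper left space -/
  tX : CompHaus.{u}
  /-- the upper right space -/
  tY : CompHaus.{u}
  /-- the lower left space -/
  X : CompHaus.{u}
  /-- the lower right space -/
  Y : CompHaus.{u}
  /-- the upper map -/
  tf : tX ⟶ tY
  /-- the lower map -/
  f : X ⟶ Y
  /-- the left map -/
  pX : tX ⟶ X
  /-- the right map -/
  pY : tY ⟶ Y
  comm : pX ≫ f = tf ≫ pY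

/-- The image of a square under a functor. -/
def Square.map (F : CompHaus.{u} ⥤ CompHaus.{u}) (D : Square.{u}) : Square.{u} where
  tX := F.obj D.tX
  tY := F.obj D.tY
  X := F.obj D.X
  Y := F.obj D.Y
  tf := F.map D.tf
  f := F.map D.f
  pX := F.map D.pX
  pY := F.map D.pY
  comm := by rw [← F.map_comp, ← F.map_comp, D.comm]

/-- All maps of the square are surjective. -/
def Square.Surjections (D : Square.{u}) : Prop :=
  Function.Surjective D.tf ∧ Function.Surjective D.f ∧ Function.Surjective D.pX ∧
    Function.Surjective D.pY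

/-- All spaces of the square are finite. -/
def Square.FiniteSpaces (D : Square.{u}) : Prop :=
  Finite D.tX ∧ Finite D.tY ∧ Finite D.X ∧ Finite D.Y

/-- Bicommutative squares: `tf (pX⁻¹ (x)) = pY⁻¹ (f (x))` for all `x`. -/
def Square.Bicommutative (D : Square.{u}) : Prop :=
  ∀ x : D.X, D.tf '' (D.pX ⁻¹' {x}) = D.pY ⁻¹' {D.f x}

/-- Skeletal squares: for every `x` and every neighbourhood `U` of `x` there is a nonempty open
`V` with `V ⊆ f(U)` and `pY⁻¹ (V) ⊆ tf (pX⁻¹ (U))`. -/
def Square.Skeletal (D : Square.{u}) : Prop :=
  ∀ (x : D.X) (U : Set D.X), U ∈ 𝓝 x → ∃ V : Set D.Y, IsOpen V ∧ V.Nonempty ∧ V ⊆ D.f '' U ∧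
    D.pY ⁻¹' V ⊆ D.tf '' (D.pX ⁻¹' U)

/-- A closed subspace of a compact Hausdorff space, as an object of the category. -/
def sub (X : CompHaus.{u}) (A : Set X) (hA : IsClosed A) : CompHaus.{u} :=
  letI : CompactSpace A := isCompact_iff_compactSpace.1 hA.isCompact
  CompHaus.of A

/-- The inclusion of a closed subspace. -/
def incl (X : CompHaus.{u}) (A : Set X) (hA : IsClosed A) : sub X A hA ⟶ X :=
  ConcreteCategory.ofHom (C := CompHaus.{u}) ⟨fun x : A => (x : X), continuous_subtype_val⟩

/-- Normal functors in the sense of Shchepin. -/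
structure IsNormal (F : CompHaus.{u} ⥤ CompHaus.{u}) : Prop where
  /-- `F` is monomorphic. -/
  mono : ∀ {X Y : CompHaus.{u}} (f : X ⟶ Y), Function.Injective f →
    Function.Injective (F.map f)
  /-- `F` is epimorphic. -/
  epi : ∀ {X Y : CompHaus.{u}} (f : X ⟶ Y), Function.Surjective f →
    Function.Surjective (F.map f)
  /-- `F` is continuous: it preserves the limits of inverse spectra over directed posets. -/
  cont : ∀ (J : Type u) [PartialOrder J] [IsDirectedOrder J] [Nonempty J],
    Limits.PreservesLimitsOfShape Jᵒᵖ F
  /-- `F` preserves intersections of closed subsets. -/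
  inter : ∀ (X : CompHaus.{u}) (ι : Type u) (A : ι → Set X) (hA : ∀ i, IsClosed (A i)),
    range (F.map (incl X (⋂ i, A i) (isClosed_iInter hA))) =
      ⋂ i, range (F.map (incl X (A i) (hA i)))
  /-- `F` preserves the empty set. -/
  empty : ∀ X : CompHaus.{u}, IsEmpty X → IsEmpty (F.obj X)
  /-- `F` preserves the one-point space. -/
  point : ∀ X : CompHaus.{u}, Nonempty X → Subsingleton X →
    Nonempty (F.obj X) ∧ Subsingleton (F.obj X)
  /-- `F` does not raise the weight of infinite spaces. -/
  weight : ∀ X : CompHaus.{u}, Infinite X → weight (F.obj X) ≤ weight X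
  /-- `F` preserves preimages. -/
  preim : ∀ D : Square.{u}, Function.Injective D.f → Function.Injective D.tf →
    D.Bicommutative → (D.map F).Bicommutative

/-- A functor is finitary if it maps finite spaces to finite spaces. -/
def IsFinitary (F : CompHaus.{u} ⥤ CompHaus.{u}) : Prop :=
  ∀ X : CompHaus.{u}, Finite X → Finite (F.obj X)

/-- A functor is skeletal if it maps open surjections to skeletal maps. -/
def IsSkeletalFunctor (F : CompHaus.{u} ⥤ CompHaus.{u}) : Prop :=
  ∀ {X Y : CompHaus.{u}} (f : X ⟶ Y), Function.Surjective f → IsOpenMap f →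
    IsSkeletalMap (F.map f)

/-- A functor is square-skeletal if it maps skeletal squares of surjections to skeletal
squares. -/
def IsSquareSkeletal (F : CompHaus.{u} ⥤ CompHaus.{u}) : Prop :=
  ∀ D : Square.{u}, D.Surjections → D.Skeletal → (D.map F).Skeletal

/-- A functor is finitely square-skeletal if it maps skeletal squares of surjections between
finite spaces to skeletal squares. -/
def IsFinitelySquareSkeletal (F : CompHaus.{u} ⥤ CompHaus.{u}) : Prop :=
  ∀ D : Square.{u}, D.FiniteSpaces → D.Surjections → D.Skeletal → (D.map F).Skeletal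

end Q178.Functors
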