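import Pool.Agent.Q178.Functors.Cont

set_option autoImplicit false

/-!
Degree, openness and bicommutativity of functors in the category of compact Hausdorff spaces.
-/

universe u

namespace Q178.Functors

open CategoryTheory Set Topology

/-- The discrete space `{0, …, n - 1}`. -/
def fin (n : ℕ) : CompHaus.{u} := CompHaus.of (ULift.{u} (Fin n))

/-- `F_n(X) = F(X)` for all `X`: every element of `F(X)` is in the image of `F(n)` under `F(ξ)` for
some map `ξ` from the discrete space `n = {0, …, n - 1}` to `X`. -/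
def DegreeLE (F : CompHaus.{u} ⥤ CompHaus.{u}) (n : ℕ) : Prop :=
  ∀ (X : CompHaus.{u}) (a : F.obj X), ∃ ξ : fin.{u} n ⟶ X, a ∈ range (F.map ξ)

/-- The degree of `F` is `n`. -/
def HasDegree (F : CompHaus.{u} ⥤ CompHaus.{u}) (n : ℕ) : Prop :=
  DegreeLE F n ∧ ∀ m, DegreeLE F m → n ≤ m

/-- A functor is open if it maps open surjections to open maps. -/
def IsOpenFunctor (F : CompHaus.{u} ⥤ CompHaus.{u}) : Prop :=
  ∀ {X Y : CompHaus.{u}} (f : X ⟶ Y), Function.Surjective f → IsOpenMap f → IsOpenMap (F.map f)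

/-- A functor is finitely bicommutative if it maps bicommutative squares of surjections between
finite spaces to bicommutative squares. -/
def IsFinitelyBicommutative (F : CompHaus.{u} ⥤ CompHaus.{u}) : Prop :=
  ∀ D : Square.{u}, D.FiniteSpaces → D.Surjections → D.Bicommutative → (D.map F).Bicommutative

lemma fun_degreeLE : DegreeLE Fun.{u} 2 := by
  intro X a
  obtain ⟨⟨p, q, t⟩, rfl⟩ := surjective_mk (X := X) a
  let ξ : fin.{u} 2 ⟶ X := ConcreteCategory.ofHom (C := CompHaus.{u})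
    (⟨fun i => if i.down = 0 then p else q, continuous_of_discreteTopology⟩ :
      C(ULift.{u} (Fin 2), X))
  refine ⟨ξ, (mk (⟨0⟩, ⟨1⟩, t) : M (ULift.{u} (Fin 2))), ?_⟩
  rfl

lemma fun_degree : HasDegree Fun.{u} 2 := by
  refine ⟨fun_degreeLE, fun m hm => ?_⟩
  by_contra hlt
  push Not at hlt
  -- two different points
  let X : CompHaus.{u} := fin 2
  let a : M (ULift.{u} (Fin 2)) := mk (⟨0⟩, ⟨1⟩, true)
  obtain ⟨ξ, b, hb⟩ := hm X a
  obtain ⟨⟨p, q, t⟩, rfl⟩ := surjective_mk (X := ULift.{u} (Fin m)) b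
  have hpq : p = q := by
    apply ULift.ext
    apply Fin.ext
    have h1 := p.down.2
    have h2 := q.down.2
    omega
  subst hpq
  have h1 : (mk (ConcreteCategory.hom ξ p, ConcreteCategory.hom ξ p, t) : M (ULift.{u} (Fin 2))) =
      mk (⟨0⟩, ⟨1⟩, true) := hb
  rw [mk_eq_iff] at h1
  have h01 : (⟨0⟩ : ULift.{u} (Fin 2)) ≠ ⟨1⟩ := by
    intro h
    exact absurd (congrArg ULift.down h) (by decide)
  rcases h1 with h1 | ⟨-, -, h2, h3⟩ | ⟨-, h2, h3⟩
  · exact h01 ((congrArg Prod.fst h1).symm.trans (congrArg (fun z => z.2.1) h1))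
  · exact h01 (h3.symm.trans h2)
  · exact h01 (h2.trans h3.symm)

instance finB' : CompactSpace (ULift.{u} Bool × ULift.{u} Bool) := inferInstance

/-- The square of the two projections of the product of two two-point spaces. -/
def D2 : Square.{u} where
  tX := CompHaus.of (ULift.{u} Bool × ULift.{u} Bool)
  tY := CompHaus.of (ULift.{u} Bool)
  X := CompHaus.of (ULift.{u} Bool)
  Y := CompHaus.of PUnit.{u + 1}
  tf := ConcreteCategory.ofHom (C := CompHaus.{u}) ⟨Prod.snd, continuous_snd⟩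
  f := ConcreteCategory.ofHom (C := CompHaus.{u}) ⟨fun _ => PUnit.unit, continuous_const⟩
  pX := ConcreteCategory.ofHom (C := CompHaus.{u}) ⟨Prod.fst, continuous_fst⟩
  pY := ConcreteCategory.ofHom (C := CompHaus.{u}) ⟨fun _ => PUnit.unit, continuous_const⟩
  comm := rfl

lemma finite_D2 : D2.{u}.FiniteSpaces := by
  refine ⟨?_, ?_, ?_, ?_⟩
  · exact (inferInstance : Finite (ULift.{u} Bool × ULift.{u} Bool))
  · exact (inferInstance : Finite (ULift.{u} Bool))
  · exact (inferInstance : Finite (ULift.{u} Bool))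
  · exact (inferInstance : Finite PUnit.{u + 1})

lemma surjections_D2 : D2.{u}.Surjections := by
  refine ⟨fun x => ⟨(x, x), rfl⟩, fun _ => ⟨⟨true⟩, rfl⟩, fun x => ⟨(x, x), rfl⟩,
    fun _ => ⟨⟨true⟩, rfl⟩⟩

lemma bicommutative_D2 : D2.{u}.Bicommutative := by
  intro x
  ext y
  constructor
  · rintro ⟨z, _, rfl⟩
    rfl
  · intro _
    exact ⟨(x, y), rfl, rfl⟩

lemma fun_not_bicommutative : ¬ IsFinitelyBicommutative Fun.{u} := by
  intro hF
  have h := hF D2 finite_D2 surjections_D2 bicommutative_D2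
  let a : ULift.{u} Bool := ⟨false⟩
  let b : ULift.{u} Bool := ⟨true⟩
  have hab : a ≠ b := by
    intro h
    exact absurd (congrArg ULift.down h) (by decide)
  let x : M (ULift.{u} Bool) := mk (a, b, true)
  let y : M (ULift.{u} Bool) := mk (a, b, false)
  have hsub : Subsingleton (M PUnit.{u + 1}) := by
    refine ⟨fun p q => ?_⟩
    obtain ⟨p, rfl⟩ := surjective_mk p
    obtain ⟨q, rfl⟩ := surjective_mk q
    rw [mk_eq_iff]
    exact Or.inr (Or.inr ⟨rfl, rfl, rfl⟩)
  have hx := h x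
  have hy : y ∈ (D2.{u}.map Fun).pY ⁻¹' {(D2.{u}.map Fun).f x} :=
    Subsingleton.elim (α := M PUnit.{u + 1}) _ _
  rw [← hx] at hy
  obtain ⟨z, hz, hzy⟩ := hy
  obtain ⟨⟨⟨p, q⟩, ⟨r, s⟩, t⟩, rfl⟩ := surjective_mk
    (X := ULift.{u} Bool × ULift.{u} Bool) z
  have h1 : (mk (p, r, t) : M (ULift.{u} Bool)) = mk (a, b, true) := hz
  have h2 : (mk (q, s, t) : M (ULift.{u} Bool)) = mk (a, b, false) := hzy
  rw [mk_eq_iff] at h1 h2
  have ht : t = true := by
    rcases h1 with h1 | ⟨h1, _⟩ | ⟨_, h3, h4⟩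
    · simp only [Prod.mk.injEq] at h1
      exact h1.2.2
    · exact h1
    · exact absurd (h3.trans h4.symm) hab
  rcases h2 with h2 | ⟨_, h2, _⟩ | ⟨_, h3, h4⟩
  · simp only [Prod.mk.injEq] at h2
    rw [ht] at h2
    exact absurd h2.2.2 (by decide)
  · exact absurd h2 (by decide)
  · exact absurd (h3.trans h4.symm) hab

/-- The unit interval. -/
abbrev I' : Type u := ULift.{u} unitInterval

lemma nebot_I' (y : I'.{u}) : (𝓝[≠] y).NeBot := by
  have : Nontrivial I'.{u} := inferInstance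
  have : ConnectedSpace I'.{u} := Homeomorph.ulift.symm.surjective.connectedSpace
    Homeomorph.ulift.symm.continuous
  infer_instance

/-- The projection of the product of the unit interval and a two-point space. -/
def prI : CompHaus.of (I'.{u} × Bool) ⟶ CompHaus.of I'.{u} :=
  ConcreteCategory.ofHom (C := CompHaus.{u}) ⟨Prod.fst, continuous_fst⟩

lemma fun_not_open : ¬ IsOpenFunctor Fun.{u} := by
  intro hF
  have hopen := hF prI.{u} (fun y => ⟨(y, true), rfl⟩) isOpenMap_fst
  -- the open set of measures `(d_p + d_q) / 2` with `p`, `q` in different copies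
  set U : Set (M (I'.{u} × Bool)) := mk '' {x | x.1.2 = true ∧ x.2.1.2 = false ∧ x.2.2 = true}
    with hU
  have hUo : IsOpen U := by
    rw [← isQuotientMap_mk.isOpen_preimage]
    have h1 : (mk : _ → M (I'.{u} × Bool)) ⁻¹' U =
        {x | x.1.2 ≠ x.2.1.2 ∧ x.2.2 = true} := by
      ext ⟨⟨a, s⟩, ⟨b, t⟩, w⟩
      constructor
      · rintro ⟨⟨⟨a', s'⟩, ⟨b', t'⟩, w'⟩, ⟨h1, h2, h3⟩, h4⟩
        simp only at h1 h2 h3
        subst h1 h2 h3
        rw [mk_eq_iff] at h4
        rcases h4 with h4 | ⟨-, h4, h5, h6⟩ | ⟨h4, h5, h6⟩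
        · simp only [Prod.mk.injEq] at h4
          obtain ⟨⟨-, h5⟩, ⟨-, h6⟩, h7⟩ := h4
          subst h5 h6 h7
          simp
        · simp only [Prod.mk.injEq] at h4 h5 h6
          obtain ⟨-, h5⟩ := h5
          obtain ⟨-, h6⟩ := h6
          subst h4 h5 h6
          simp
        · simp only [Prod.mk.injEq] at h4
          exact absurd h4.2 (by decide)
      · rintro ⟨h1, h2⟩
        simp only at h1 h2
        subst h2
        cases s
        · have ht : t = true := by
            cases t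
            · exact absurd rfl h1
            · rfl
          subst ht
          refine ⟨((b, true), (a, false), true), ⟨rfl, rfl, rfl⟩, ?_⟩
          rw [mk_eq_iff]
          exact Or.inr (Or.inl ⟨rfl, rfl, rfl, rfl⟩)
        · have ht : t = false := by
            cases t
            · rfl
            · exact absurd rfl h1
          subst ht
          exact ⟨((a, true), (b, false), true), ⟨rfl, rfl, rfl⟩, rfl⟩
    rw [h1]
    have h2 : IsOpen {x : (I'.{u} × Bool) × (I'.{u} × Bool) × Bool | x.1.2 ≠ x.2.1.2} := by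
      have : Continuous fun x : (I'.{u} × Bool) × (I'.{u} × Bool) × Bool => (x.1.2, x.2.1.2) := by
        fun_prop
      exact (isOpen_discrete {p : Bool × Bool | p.1 ≠ p.2}).preimage this
    have h3 : IsOpen {x : (I'.{u} × Bool) × (I'.{u} × Bool) × Bool | x.2.2 = true} := by
      have : Continuous fun x : (I'.{u} × Bool) × (I'.{u} × Bool) × Bool => x.2.2 := by
        fun_prop
      exact (isOpen_discrete {p : Bool | p = true}).preimage this
    exact h2.inter h3
  have hV := hopen U hUo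
  set V : Set (M I'.{u}) := (Fun.map prI.{u} : M (I'.{u} × Bool) → M I'.{u}) '' U with hVd
  have hV' : IsOpen V := hV
  have hVp : IsOpen ((mk : I'.{u} × I'.{u} × Bool → M I'.{u}) ⁻¹' V) :=
    hV'.preimage continuous_mk
  let y : I'.{u} := ⟨0⟩
  have hy : (y, y, false) ∈ (mk : I'.{u} × I'.{u} × Bool → M I'.{u}) ⁻¹' V := by
    refine ⟨mk ((y, true), (y, false), true), ⟨_, ⟨rfl, rfl, rfl⟩, rfl⟩, ?_⟩
    change (mk (y, y, true) : M I'.{u}) = mk (y, y, false)
    rw [mk_eq_iff]
    exact Or.inr (Or.inr ⟨rfl, rfl, rfl⟩)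
  have hc : Continuous fun z : I'.{u} => (y, z, false) := by fun_prop
  have hn : (fun z : I'.{u} => (y, z, false)) ⁻¹'
      ((mk : I'.{u} × I'.{u} × Bool → M I'.{u}) ⁻¹' V) ∈ 𝓝 y :=
    (hVp.preimage hc).mem_nhds hy
  have : (𝓝[≠] y).NeBot := nebot_I' y
  have hn' : (fun z : I'.{u} => (y, z, false)) ⁻¹'
      ((mk : I'.{u} × I'.{u} × Bool → M I'.{u}) ⁻¹' V) ∈ 𝓝[≠] y :=
    mem_nhdsWithin_of_mem_nhds hn
  obtain ⟨z, hz, hzy⟩ := Filter.nonempty_of_mem (Filter.inter_mem hn' self_mem_nhdsWithin)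
  obtain ⟨w, ⟨⟨⟨p, s⟩, ⟨q, t⟩, v⟩, ⟨h1, h2, h3⟩, rfl⟩, h4⟩ := hz
  simp only at h1 h2 h3
  subst h1 h2 h3
  have h5 : (mk (p, q, true) : M I'.{u}) = mk (y, z, false) := h4
  rw [mk_eq_iff] at h5
  rcases h5 with h5 | ⟨-, h5, -⟩ | ⟨-, h6, h5⟩
  · exact absurd (congrArg (fun z => z.2.2) h5) (by simp)
  · exact absurd h5 (by simp)
  · exact hzy (h5.trans h6.symm)

end Q178.Functors
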