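import Pool.Agent.Q178.Functors.Space

set_option autoImplicit false

/-!
The functor `Fun` is normal, finitary and skeletal.
-/

universe u v

namespace Q178.Functors

open CategoryTheory Set Topology
open scoped Cardinal

lemma rel_tmap_iff {X : Type u} {Y : Type v} {f : X → Y} (hf : Function.Injective f)
    {p q : X × X × Bool} : Rel (tmap f p) (tmap f q) ↔ Rel p q := by
  obtain ⟨a, b, s⟩ := p
  obtain ⟨c, d, t⟩ := q
  simp only [Rel, tmap, Prod.mk.injEq, hf.eq_iff]

/-! ### Simple properties -/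

lemma fun_mono {X Y : CompHaus.{u}} (f : X ⟶ Y) (hf : Function.Injective f) :
    Function.Injective (Fun.map f) := by
  intro x y h
  obtain ⟨p, rfl⟩ := surjective_mk (X := X) x
  obtain ⟨q, rfl⟩ := surjective_mk (X := X) y
  change (mk (tmap f p) : M Y) = mk (tmap f q) at h
  change (mk p : M X) = mk q
  rw [mk_eq_iff] at h ⊢
  exact (rel_tmap_iff hf).1 h

lemma fun_epi {X Y : CompHaus.{u}} (f : X ⟶ Y) (hf : Function.Surjective f) :
    Function.Surjective (Fun.map f) := by
  intro y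
  obtain ⟨⟨a, b, t⟩, rfl⟩ := surjective_mk (X := Y) y
  obtain ⟨a', rfl⟩ := hf a
  obtain ⟨b', rfl⟩ := hf b
  exact ⟨(mk (a', b', t) : M X), rfl⟩

lemma mem_of_rel {X : Type u} {A : Set X} {p q : X × X × Bool} (h : Rel p q)
    (hp : p.1 ∈ A ∧ p.2.1 ∈ A) : q.1 ∈ A ∧ q.2.1 ∈ A := by
  rcases h with h | ⟨_, _, h3, h4⟩ | ⟨_, h2, h3⟩
  · rwa [← h]
  · rw [← h3, ← h4]
    exact hp.symm
  · rw [h2, h3]
    exact ⟨hp.1, hp.1⟩

lemma mem_range_incl {X : CompHaus.{u}} {A : Set X} (hA : IsClosed A) (p : X × X × Bool) :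
    (mk p : M X) ∈ range (Fun.map (incl X A hA)) ↔ p.1 ∈ A ∧ p.2.1 ∈ A := by
  constructor
  · rintro ⟨y, hy⟩
    obtain ⟨⟨a, b, t⟩, rfl⟩ := surjective_mk (X := (sub X A hA)) y
    change (mk (tmap (incl X A hA) (a, b, t)) : M X) = mk p at hy
    rw [mk_eq_iff] at hy
    exact mem_of_rel hy ⟨a.2, b.2⟩
  · rintro ⟨h1, h2⟩
    refine ⟨(mk ((⟨p.1, h1⟩ : A), (⟨p.2.1, h2⟩ : A), p.2.2) : M (sub X A hA)), rfl⟩

lemma fun_inter (X : CompHaus.{u}) (ι : Type u) (A : ι → Set X) (hA : ∀ i, IsClosed (A i)) :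
    range (Fun.map (incl X (⋂ i, A i) (isClosed_iInter hA))) =
      ⋂ i, range (Fun.map (incl X (A i) (hA i))) := by
  ext x
  obtain ⟨p, rfl⟩ := surjective_mk (X := X) x
  refine (mem_range_incl (isClosed_iInter hA) p).trans ?_
  refine Iff.trans ?_ mem_iInter.symm
  refine Iff.trans ?_ (forall_congr' fun i => (mem_range_incl (hA i) p).symm)
  simp only [mem_iInter]
  exact forall_and.symm

lemma fun_empty (X : CompHaus.{u}) (h : IsEmpty X) : IsEmpty (Fun.obj X) := by
  refine ⟨fun x => ?_⟩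
  obtain ⟨p, rfl⟩ := surjective_mk (X := X) x
  exact h.false p.1

lemma fun_point (X : CompHaus.{u}) (hn : Nonempty X) (hs : Subsingleton X) :
    Nonempty (Fun.obj X) ∧ Subsingleton (Fun.obj X) := by
  obtain ⟨a⟩ := hn
  refine ⟨⟨(mk (a, a, true) : M X)⟩, ⟨fun x y => ?_⟩⟩
  obtain ⟨p, rfl⟩ := surjective_mk (X := X) x
  obtain ⟨q, rfl⟩ := surjective_mk (X := X) y
  change (mk p : M X) = mk q
  rw [mk_eq_iff]
  exact Or.inr (Or.inr ⟨Subsingleton.elim _ _, Subsingleton.elim _ _, Subsingleton.elim _ _⟩)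

lemma fun_finitary : IsFinitary Fun.{u} := by
  intro X hX
  have : Finite (X × X × Bool) := inferInstance
  exact Finite.of_surjective (mk : X × X × Bool → M X) surjective_mk

/-! ### Preservation of preimages -/

lemma fun_preim (D : Square.{u}) (hf : Function.Injective D.f) (hD : D.Bicommutative) :
    (D.map Fun).Bicommutative := by
  have hcomm : ∀ z, D.f (D.pX z) = D.pY (D.tf z) := fun z => by
    have := D.comm
    exact congrFun (congrArg (fun g : D.tX ⟶ D.Y => (g : D.tX → D.Y)) this) z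
  intro x
  obtain ⟨p, rfl⟩ := surjective_mk (X := D.X) x
  apply Subset.antisymm
  · rintro _ ⟨z, hz, rfl⟩
    have h1 : (D.map Fun).pX ≫ (D.map Fun).f = (D.map Fun).tf ≫ (D.map Fun).pY :=
      (D.map Fun).comm
    have h2 := congrFun (congrArg (fun g : (D.map Fun).tX ⟶ (D.map Fun).Y =>
      (g : (D.map Fun).tX → (D.map Fun).Y)) h1) z
    change (D.map Fun).pY ((D.map Fun).tf z) = (D.map Fun).f (mk p : M D.X)
    have h3 : (D.map Fun).pX z = (mk p : M D.X) := hz
    rw [← h3]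
    exact h2.symm
  · intro y hy
    obtain ⟨⟨c, d, t⟩, rfl⟩ := surjective_mk (X := D.tY) y
    have h1 : (mk (tmap D.pY (c, d, t)) : M D.Y) = mk (tmap D.f p) := hy
    rw [mk_eq_iff] at h1
    -- the two points lie in the image of `f`
    have h2 : D.pY c ∈ range D.f ∧ D.pY d ∈ range D.f := by
      have h3 : Rel (tmap D.f p) (tmap D.pY (c, d, t)) := by
        rw [← mk_eq_iff] at h1 ⊢
        exact h1.symm
      exact mem_of_rel h3 ⟨⟨_, rfl⟩, ⟨_, rfl⟩⟩
    have hlift : ∀ c, D.pY c ∈ range D.f → ∃ z, D.tf z = c := by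
      rintro c ⟨x, hx⟩
      have : c ∈ D.tf '' (D.pX ⁻¹' {x}) := by
        rw [hD x]
        exact hx.symm
      obtain ⟨z, _, hz⟩ := this
      exact ⟨z, hz⟩
    obtain ⟨z, rfl⟩ := hlift c h2.1
    obtain ⟨w, rfl⟩ := hlift d h2.2
    refine ⟨(mk (z, w, t) : M D.tX), ?_, rfl⟩
    change (mk (tmap D.pX (z, w, t)) : M D.X) = mk p
    rw [mk_eq_iff, ← rel_tmap_iff hf]
    have h3 : tmap D.f (tmap D.pX (z, w, t)) = tmap D.pY (D.tf z, D.tf w, t) := by
      simp only [tmap, hcomm]
    rw [h3]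
    exact h1

/-! ### Weight -/

lemma infinite_basis {X : Type u} [TopologicalSpace X] [T1Space X] [Infinite X]
    {B : Set (Set X)} (hB : TopologicalSpace.IsTopologicalBasis B) : Infinite B := by
  by_contra hfin
  rw [not_infinite_iff_finite] at hfin
  have h1 : Function.Injective fun x : X => {U : B | x ∈ (U : Set X)} := by
    intro x y hxy
    by_contra hne
    obtain ⟨U, hU, hxU, hUy⟩ := hB.exists_subset_of_mem_open
      (show x ∈ ({y}ᶜ : Set X) from hne) isOpen_compl_singleton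
    have : (⟨U, hU⟩ : B) ∈ {U : B | y ∈ (U : Set X)} := by
      have h2 : {U : B | x ∈ (U : Set X)} = {U : B | y ∈ (U : Set X)} := hxy
      rw [← h2]
      exact hxU
    exact hUy this rfl
  have := Finite.of_injective _ h1
  exact not_finite X

lemma fun_weight (X : CompHaus.{u}) (hX : Infinite X) : weight (Fun.obj X) ≤ weight X := by
  classical
  apply le_csInf
  · exact ⟨_, _, TopologicalSpace.isTopologicalBasis_opens, rfl⟩
  rintro κ ⟨B, hB, rfl⟩
  have hT2 : T2Space X := X.is_hausdorff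
  have hT1 : T1Space X := T2Space.t1Space
  have hinf : Infinite B := infinite_basis hB
  -- the basic sets
  let box : B × B × Bool → Set (X × X × Bool) := fun s => {p | p.1 ∈ (s.1 : Set X) ∧
    p.2.1 ∈ (s.2.1 : Set X) ∧ p.2.2 = s.2.2}
  have hbox : ∀ s, IsOpen (box s) := by
    intro s
    have h1 : IsOpen (s.1 : Set X) := hB.isOpen s.1.2
    have h2 : IsOpen (s.2.1 : Set X) := hB.isOpen s.2.1.2
    exact (h1.preimage continuous_fst).inter ((h2.preimage (continuous_fst.comp
      continuous_snd)).inter ((isOpen_discrete {s.2.2}).preimage (continuous_snd.comp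
      continuous_snd)))
  let W : Finset (B × B × Bool) → Set (M X) := fun S => (mk '' (⋃ s ∈ S, box s)ᶜ)ᶜ
  have hcl : IsClosedMap (mk : X × X × Bool → M X) := continuous_mk.isClosedMap
  have hW : ∀ S, IsOpen (W S) := by
    intro S
    rw [isOpen_compl_iff]
    apply hcl
    rw [isClosed_compl_iff]
    exact isOpen_biUnion fun s _ => hbox s
  have hbasis : TopologicalSpace.IsTopologicalBasis (range W) := by
    apply TopologicalSpace.isTopologicalBasis_of_isOpen_of_nhds
    · rintro _ ⟨S, rfl⟩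
      exact hW S
    · intro x U hx hU
      have hfib : IsCompact ((mk : X × X × Bool → M X) ⁻¹' {x}) :=
        (isClosed_singleton.preimage continuous_mk).isCompact
      have hUo : IsOpen ((mk : X × X × Bool → M X) ⁻¹' U) := hU.preimage continuous_mk
      have hcov : ∀ p ∈ (mk : X × X × Bool → M X) ⁻¹' {x}, ∃ s, p ∈ box s ∧
          box s ⊆ mk ⁻¹' U := by
        rintro ⟨a, b, t⟩ hp
        have hpU : (a, b, t) ∈ (mk : X × X × Bool → M X) ⁻¹' U := by
          have : mk (a, b, t) = x := hp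
          change mk (a, b, t) ∈ U
          rw [this]
          exact hx
        obtain ⟨V1, V2, hV1, hV2, ha, hb, hV⟩ := isOpen_prod_iff.1 hUo _ _ hpU
        obtain ⟨V3, V4, hV3, hV4, hb', ht, hV'⟩ := isOpen_prod_iff.1 hV2 _ _ hb
        obtain ⟨P, hP, haP, hPV⟩ := hB.exists_subset_of_mem_open ha hV1
        obtain ⟨Q, hQ, hbQ, hQV⟩ := hB.exists_subset_of_mem_open hb' hV3
        refine ⟨(⟨P, hP⟩, ⟨Q, hQ⟩, t), ⟨haP, hbQ, rfl⟩, ?_⟩
        rintro ⟨a', b', t'⟩ ⟨h1, h2, h3⟩
        apply hV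
        refine ⟨hPV h1, hV' ⟨hQV h2, ?_⟩⟩
        simp only at h3
        rw [h3]
        exact ht
      choose! s hs hsU using hcov
      obtain ⟨T, hT, hTcov⟩ := hfib.elim_nhds_subcover (fun p => box (s p)) fun p hp =>
        (hbox _).mem_nhds (hs p hp)
      refine ⟨W (T.image s), ⟨_, rfl⟩, ?_, ?_⟩
      · rintro ⟨p, hp, hpx⟩
        apply hp
        obtain ⟨q, hq, hpq⟩ := mem_iUnion₂.1 (hTcov hpx)
        exact mem_iUnion₂.2 ⟨s q, Finset.mem_image_of_mem _ hq, hpq⟩
      · intro y hy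
        obtain ⟨p, rfl⟩ := surjective_mk (X := X) y
        by_contra hpU
        apply hy
        refine ⟨p, ?_, rfl⟩
        intro hp
        obtain ⟨r, hr, hpr⟩ := mem_iUnion₂.1 hp
        obtain ⟨q, hq, rfl⟩ := Finset.mem_image.1 hr
        exact hpU (hsU q (hT q hq) hpr)
  have h1 : weight (Fun.obj X) ≤ #(range W) := csInf_le' ⟨_, hbasis, rfl⟩
  refine h1.trans ?_
  have h2 : #(range W) ≤ #(Finset (B × B × Bool)) := Cardinal.mk_range_le
  refine h2.trans ?_
  have hinf2 : Infinite (B × B × Bool) := by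
    have : Nonempty B := inferInstance
    infer_instance
  rw [Cardinal.mk_finset_of_infinite, Cardinal.mk_prod, Cardinal.mk_prod]
  simp only [Cardinal.lift_id, Cardinal.mk_bool, Cardinal.lift_uzero, Cardinal.lift_two]
  have h3 : ℵ₀ ≤ #B := Cardinal.aleph0_le_mk B
  have h4 : (2 : Cardinal.{u}) ≤ #B := (Cardinal.natCast_lt_aleph0 (n := 2)).le.trans h3
  have h5 : #B * 2 ≤ #B := (Cardinal.mul_le_max_of_aleph0_le_left h3).trans (max_le le_rfl h4)
  exact (Cardinal.mul_le_max_of_aleph0_le_left h3).trans (max_le le_rfl h5)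

/-! ### Skeletality -/

lemma fun_open {X Y : CompHaus.{u}} (f : X ⟶ Y) (hfo : IsOpenMap f)
    {U : Set (M X)} (hU : IsOpen U) (hne : U.Nonempty) :
    ∃ N : Set (M Y), IsOpen N ∧ N.Nonempty ∧ N ⊆ (Fun.map f : M X → M Y) '' U := by
  classical
  obtain ⟨x, hx⟩ := hne
  obtain ⟨⟨a, b, t⟩, rfl⟩ := surjective_mk (X := X) x
  have hUo : IsOpen ((mk : X × X × Bool → M X) ⁻¹' U) := hU.preimage continuous_mk
  obtain ⟨A, V2, hA, hV2, ha, hb, hV⟩ := isOpen_prod_iff.1 hUo _ _ hx
  obtain ⟨B, V4, hB, hV4, hb', ht, hV'⟩ := isOpen_prod_iff.1 hV2 _ _ hb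
  have hAB : ∀ a' ∈ A, ∀ b' ∈ B, (mk (a', b', t) : M X) ∈ U := fun a' ha' b' hb' =>
    hV (show (a', b', t) ∈ A ×ˢ V2 from ⟨ha', hV' ⟨hb', ht⟩⟩)
  have hquo : ∀ N : Set (M Y), IsOpen ((mk : Y × Y × Bool → M Y) ⁻¹' N) → IsOpen N := fun N hN =>
    isQuotientMap_mk.isOpen_preimage.1 hN
  by_cases hcase : ∃ a' ∈ A, ∃ b' ∈ B, f a' ≠ f b'
  · obtain ⟨a', ha', b', hb'', hne⟩ := hcase
    obtain ⟨P, Q, hP, hQ, haP, hbQ, hdisj⟩ := t2_separation hne
    let P' := P ∩ f '' A
    let Q' := Q ∩ f '' B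
    have hP' : IsOpen P' := hP.inter (hfo A hA)
    have hQ' : IsOpen Q' := hQ.inter (hfo B hB)
    have hdisj' : ∀ c ∈ P', ∀ d ∈ Q', c ≠ d := by
      rintro c hc d hd rfl
      exact Set.disjoint_left.1 hdisj hc.1 hd.1
    refine ⟨mk '' (P' ×ˢ Q' ×ˢ {t}), hquo _ ?_, ?_, ?_⟩
    · have heq : (mk : Y × Y × Bool → M Y) ⁻¹' (mk '' (P' ×ˢ Q' ×ˢ {t})) =
          (P' ×ˢ Q' ×ˢ {t}) ∪ (if t = true then Q' ×ˢ P' ×ˢ {true} else ∅) := by
        ext ⟨c, d, s⟩
        constructor
        · rintro ⟨⟨c', d', s'⟩, ⟨hc', hd', hs'⟩, hq⟩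
          simp only at hc' hd' hs'
          rw [mem_singleton_iff] at hs'
          subst hs'
          rw [mk_eq_iff] at hq
          rcases hq with hq | ⟨h1, h2, h3, h4⟩ | ⟨h1, h2, h3⟩
          · left
            rw [← hq]
            exact ⟨hc', hd', rfl⟩
          · right
            simp only at h1 h2 h3 h4
            subst h3 h4
            rw [if_pos h1]
            exact ⟨hd', hc', h2⟩
          · exact absurd h1 (hdisj' _ hc' _ hd')
        · rintro (h | h)
          · exact ⟨_, h, rfl⟩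
          · by_cases htt : t = true
            · rw [if_pos htt] at h
              obtain ⟨h1, h2, h3⟩ := h
              simp only at h1 h2 h3
              rw [mem_singleton_iff] at h3
              refine ⟨(d, c, t), ⟨h2, h1, rfl⟩, ?_⟩
              rw [mk_eq_iff]
              exact Or.inr (Or.inl ⟨htt, h3, rfl, rfl⟩)
            · rw [if_neg htt] at h
              exact absurd h (notMem_empty _)
      rw [heq]
      apply IsOpen.union
      · exact hP'.prod (hQ'.prod (isOpen_discrete _))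
      · split_ifs
        · exact hQ'.prod (hP'.prod (isOpen_discrete _))
        · exact isOpen_empty
    · exact ⟨_, (f a', f b', t), ⟨⟨haP, a', ha', rfl⟩, ⟨hbQ, b', hb'', rfl⟩, rfl⟩, rfl⟩
    · rintro _ ⟨⟨c, d, s⟩, ⟨⟨_, a1, ha1, rfl⟩, ⟨_, b1, hb1, rfl⟩, hs⟩, rfl⟩
      simp only at hs
      rw [mem_singleton_iff] at hs
      subst hs
      exact ⟨mk (a1, b1, s), hAB a1 ha1 b1 hb1, rfl⟩
  · push Not at hcase
    -- `f(A)` is a single isolated point
    have hsing : f '' A = {f a} := by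
      ext c
      constructor
      · rintro ⟨a', ha', rfl⟩
        rw [mem_singleton_iff, hcase a' ha' b hb', hcase a ha b hb']
      · rintro rfl
        exact ⟨a, ha, rfl⟩
    have hopen : IsOpen ({f a} : Set Y) := by
      rw [← hsing]
      exact hfo A hA
    refine ⟨{mk (f a, f a, t)}, hquo _ ?_, singleton_nonempty _, ?_⟩
    · have heq : (mk : Y × Y × Bool → M Y) ⁻¹' {mk (f a, f a, t)} =
          ({f a} : Set Y) ×ˢ ({f a} : Set Y) ×ˢ (univ : Set Bool) := by
        ext ⟨c, d, s⟩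
        constructor
        · intro h
          have h' : (mk (f a, f a, t) : M Y) = mk (c, d, s) := (mem_singleton_iff.1 h).symm
          rw [mk_eq_iff] at h'
          rcases h' with h' | ⟨_, _, h3, h4⟩ | ⟨_, h2, h3⟩
          · simp only [Prod.mk.injEq] at h'
            exact ⟨h'.1.symm, h'.2.1.symm, trivial⟩
          · exact ⟨h4.symm, h3.symm, trivial⟩
          · exact ⟨h2, h3, trivial⟩
        · rintro ⟨h1, h2, _⟩
          rw [mem_preimage, mem_singleton_iff, mk_eq_iff]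
          simp only at h1 h2
          rw [mem_singleton_iff] at h1 h2
          subst h1 h2
          exact Or.inr (Or.inr ⟨rfl, rfl, rfl⟩)
      rw [heq]
      exact hopen.prod (hopen.prod isOpen_univ)
    · rintro _ rfl
      refine ⟨mk (a, b, t), hx, ?_⟩
      change (mk (f a, f b, t) : M Y) = mk (f a, f a, t)
      rw [hcase a ha b hb']

lemma fun_skeletal : IsSkeletalFunctor Fun.{u} := by
  intro X Y f _ hfo A hA
  rw [IsNowhereDense] at hA ⊢
  by_contra hne
  rw [← Ne, ← nonempty_iff_ne_empty] at hne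
  obtain ⟨N, hN, hNne, hNU⟩ := fun_open f hfo isOpen_interior hne
  have hsub : closure ((Fun.map f) ⁻¹' A) ⊆ (Fun.map f) ⁻¹' (closure A) :=
    closure_minimal (preimage_mono subset_closure)
      (isClosed_closure.preimage (Fun.map f).hom.hom.continuous)
  have hNA : N ⊆ closure A := by
    intro y hy
    obtain ⟨x, hx, rfl⟩ := hNU hy
    exact hsub (interior_subset hx)
  have h1 : N ⊆ interior (closure A) := interior_maximal hNA hN
  have h2 : N ⊆ (∅ : Set (M Y)) := h1.trans (le_of_eq hA)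
  obtain ⟨y, hy⟩ := hNne
  exact h2 hy

end Q178.Functors
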