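import Pool.Agent.Q178.Functors.Defs

set_option autoImplicit false

/-!
The space of probability measures of the form `δ_a`, `(δ_a + δ_b) / 2`, `(δ_a + 2 δ_b) / 3`.
-/

universe u v

namespace Q178.Functors

open CategoryTheory Set Topology
open scoped Cardinal

/-- The weight of the first atom. -/
noncomputable def wt : Bool → ℝ
  | true => 1 / 2
  | false => 1 / 3

section space

variable (X : Type u) [TopologicalSpace X]

/-- The functional associated with a triple. -/
noncomputable def E (p : X × X × Bool) (φ : C(X, ℝ)) : ℝ :=
  wt p.2.2 * φ p.1 + (1 - wt p.2.2) * φ p.2.1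

lemma continuous_E : Continuous (E X) := by
  have hwt : Continuous wt := continuous_of_discreteTopology
  refine continuous_pi fun φ => ?_
  unfold E
  fun_prop

/-- The space of measures, as a quotient of the space of triples. -/
noncomputable def M : Type u := Quotient (Setoid.ker (E X))

instance : TopologicalSpace (M X) := inferInstanceAs (TopologicalSpace (Quotient _))

instance [CompactSpace X] : CompactSpace (M X) := inferInstanceAs (CompactSpace (Quotient _))

variable {X}

/-- The measure of a triple. -/
noncomputable def mk (p : X × X × Bool) : M X := Quotient.mk (Setoid.ker (E X)) p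

lemma continuous_mk : Continuous (mk : X × X × Bool → M X) := continuous_quotient_mk'

lemma surjective_mk : Function.Surjective (mk : X × X × Bool → M X) := Quotient.mk_surjective

lemma isQuotientMap_mk : IsQuotientMap (mk : X × X × Bool → M X) := isQuotientMap_quotient_mk'

lemma mk_eq_iff_E {p q : X × X × Bool} : mk p = mk q ↔ E X p = E X q :=
  ⟨fun h => Quotient.exact h, fun h => Quotient.sound h⟩

instance : T2Space (M X) := by
  let f : M X → C(X, ℝ) → ℝ := Quotient.lift (E X) fun _ _ h => h
  have hf : Continuous f := Continuous.quotient_lift (continuous_E X) _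
  apply T2Space.of_injective_continuous (f := f) _ hf
  intro a b
  obtain ⟨p, rfl⟩ := surjective_mk a
  obtain ⟨q, rfl⟩ := surjective_mk b
  intro h
  exact mk_eq_iff_E.2 h

/-- The explicit description of the equality of two measures. -/
def Rel {X : Type u} (p q : X × X × Bool) : Prop :=
  p = q ∨ (p.2.2 = true ∧ q.2.2 = true ∧ p.1 = q.2.1 ∧ p.2.1 = q.1) ∨
    (p.1 = p.2.1 ∧ q.1 = p.1 ∧ q.2.1 = p.1)

lemma E_eq_of_rel {p q : X × X × Bool} (h : Rel p q) : E X p = E X q := by
  obtain ⟨a, b, s⟩ := p
  obtain ⟨c, d, t⟩ := q
  funext φ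
  rcases h with h | ⟨h1, h2, h3, h4⟩ | ⟨h1, h2, h3⟩
  · rw [h]
  · simp only at h1 h2 h3 h4
    subst h1 h2 h3 h4
    simp only [E, wt]
    ring
  · simp only at h1 h2 h3
    subst h1 h2 h3
    simp only [E]
    ring

open Classical in
lemma mass_eq [CompactSpace X] [T2Space X] {p q : X × X × Bool} (h : E X p = E X q) (x : X) :
    wt p.2.2 * (if p.1 = x then 1 else 0) + (1 - wt p.2.2) * (if p.2.1 = x then 1 else 0) =
    wt q.2.2 * (if q.1 = x then 1 else 0) + (1 - wt q.2.2) * (if q.2.1 = x then 1 else 0) := by
  let S : Set X := {p.1, p.2.1, q.1, q.2.1} \ {x}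
  have hS : IsClosed S := (Set.Finite.subset (toFinite {p.1, p.2.1, q.1, q.2.1})
    sdiff_subset).isClosed
  obtain ⟨φ, hφ0, hφ1, _⟩ := exists_continuous_zero_one_of_isClosed hS
    (isClosed_singleton (x := x)) (by
      rw [Set.disjoint_singleton_right]
      exact fun h => h.2 rfl)
  have hval : ∀ y ∈ ({p.1, p.2.1, q.1, q.2.1} : Set X), φ y = if y = x then 1 else 0 := by
    intro y hy
    by_cases hyx : y = x
    · rw [if_pos hyx, hyx]
      exact hφ1 rfl
    · rw [if_neg hyx]
      exact hφ0 ⟨hy, hyx⟩
  have h1 := congrFun h φ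
  simp only [E] at h1
  rw [hval p.1 (by simp), hval p.2.1 (by simp), hval q.1 (by simp), hval q.2.1 (by simp)] at h1
  exact h1

lemma rel_of_E_eq [CompactSpace X] [T2Space X] {p q : X × X × Bool} (h : E X p = E X q) :
    Rel p q := by
  classical
  obtain ⟨a, b, s⟩ := p
  obtain ⟨c, d, t⟩ := q
  have ha := mass_eq h a
  have hb := mass_eq h b
  have hc := mass_eq h c
  simp only at ha hb hc
  by_cases hab : a = b
  · subst hab
    right
    right
    refine ⟨rfl, ?_, ?_⟩
    · by_contra hca
      by_cases hda : d = a
      · cases s <;> cases t <;> simp [hca, hda, wt] at ha <;> norm_num at ha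
      · cases s <;> cases t <;> simp [hca, hda, wt] at ha
    · by_contra hda
      by_cases hca : c = a
      · cases s <;> cases t <;> simp [hca, hda, wt] at ha
      · cases s <;> cases t <;> simp [hca, hda, wt] at ha
  · have hba : ¬ b = a := fun h => hab h.symm
    by_cases hca : c = a
    · subst hca
      by_cases hdc : d = c
      · subst hdc
        cases s <;> cases t <;> simp [hba, wt] at ha
      · by_cases hdb : d = b
        · subst hdb
          left
          cases s <;> cases t <;> first | rfl | (simp [hba, wt] at ha)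
        · cases s <;> cases t <;> simp [hab, hdb, wt] at hb <;> norm_num at hb
    · by_cases hda : d = a
      · subst hda
        by_cases hcb : c = b
        · subst hcb
          right
          left
          cases s <;> cases t <;>
            first
              | exact ⟨rfl, rfl, rfl, rfl⟩
              | (exfalso; simp [hca, wt] at ha; norm_num at ha)
        · cases s <;> cases t <;> simp [hab, hcb, wt] at hb <;> norm_num at hb
      · cases s <;> cases t <;> simp [hca, hda, hba, wt] at ha

lemma mk_eq_iff [CompactSpace X] [T2Space X] {p q : X × X × Bool} : mk p = mk q ↔ Rel p q :=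
  mk_eq_iff_E.trans ⟨rel_of_E_eq, E_eq_of_rel⟩

end space

/-! ### Maps -/

section maps

variable {X : Type u} [TopologicalSpace X] {Y : Type v} [TopologicalSpace Y]

/-- The map on triples. -/
def tmap (f : X → Y) (p : X × X × Bool) : Y × Y × Bool := (f p.1, f p.2.1, p.2.2)

lemma E_tmap (f : C(X, Y)) (p : X × X × Bool) (φ : C(Y, ℝ)) :
    E Y (tmap f p) φ = E X p (φ.comp f) := rfl

/-- The induced map on measures. -/
noncomputable def mmap (f : C(X, Y)) : M X → M Y :=
  Quotient.lift (fun p => mk (tmap f p)) fun p q h => mk_eq_iff_E.2 (by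
    funext φ
    rw [E_tmap, E_tmap]
    exact congrFun h _)

@[simp]
lemma mmap_mk (f : C(X, Y)) (p : X × X × Bool) : mmap f (mk p) = mk (tmap f p) := rfl

lemma continuous_mmap (f : C(X, Y)) : Continuous (mmap f) := by
  apply Continuous.quotient_lift
  exact continuous_mk.comp (by unfold tmap; fun_prop)

end maps

/-! ### The functor -/

/-- The functor. -/
noncomputable def Fun : CompHaus.{u} ⥤ CompHaus.{u} where
  obj X := CompHaus.of (M X)
  map {X Y} f := ConcreteCategory.ofHom (C := CompHaus.{u})
    (⟨mmap (ConcreteCategory.hom f), continuous_mmap _⟩ : C(M X, M Y))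
  map_id X := by
    ext x
    obtain ⟨p, rfl⟩ := surjective_mk x
    rfl
  map_comp f g := by
    ext x
    obtain ⟨p, rfl⟩ := surjective_mk x
    rfl

lemma Fun_map_mk {X Y : CompHaus.{u}} (f : X ⟶ Y) (p : X × X × Bool) :
    Fun.map f (mk p : M X) = (mk (tmap f p) : M Y) := rfl

end Q178.Functors
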